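import Pool.Agent.K1H72.OP.Stm

/-! # OP-13: the theta series by Poisson summation -/

set_option autoImplicit false

namespace Pool.Agent.K1H7.OP

open K1H72.OP Complex

theorem t_TP : S_TP := by
  intro τ β hτ
  have hπ : (Real.pi : ℂ) ≠ 0 := by exact_mod_cast Real.pi_ne_zero
  have hτ0 : τ ≠ 0 := fun h => by simp [h] at hτ
  have ha : 0 < (τ / (2 * (Real.pi : ℂ))).re := by
    have h1 : τ / (2 * (Real.pi : ℂ)) = τ / ((2 * Real.pi : ℝ) : ℂ) := by push_cast; rfl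
    rw [h1, Complex.div_ofReal_re]
    exact div_pos hτ (by positivity)
  have h := Complex.tsum_exp_neg_quadratic ha (β / (2 * (Real.pi : ℂ)))
  have h1 : ∑' n : ℤ, cexp (-(Real.pi : ℂ) * (τ / (2 * (Real.pi : ℂ))) * (n : ℂ) ^ 2 +
      2 * (Real.pi : ℂ) * (β / (2 * (Real.pi : ℂ))) * n) =
      ∑' n : ℤ, cexp (-τ * (n : ℂ) ^ 2 / 2 + β * n) := by
    refine tsum_congr fun n => ?_
    congr 1
    field_simp
  have h2 : ∑' n : ℤ, cexp (-(Real.pi : ℂ) / (τ / (2 * (Real.pi : ℂ))) *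
      ((n : ℂ) + I * (β / (2 * (Real.pi : ℂ)))) ^ 2) =
      ∑' m : ℤ, cexp ((β + 2 * (Real.pi : ℂ) * I * m) ^ 2 / (2 * τ)) := by
    rw [← (Equiv.neg ℤ).tsum_eq]
    refine tsum_congr fun n => ?_
    congr 1
    rw [Equiv.neg_apply]
    push_cast
    field_simp
    ring_nf
    rw [I_sq]
    ring
  have h3 : 1 / (τ / (2 * (Real.pi : ℂ))) ^ (1 / 2 : ℂ) =
      (2 * (Real.pi : ℂ) / τ) ^ (1 / 2 : ℂ) := by
    rw [one_div, ← Complex.inv_cpow, inv_div]
    intro harg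
    rw [Complex.arg_eq_pi_iff] at harg
    linarith [harg.1]
  rw [h1, h2, h3] at h
  exact h

/-- the terms of the theta series -/
theorem Th_term (τ : ℂ) (n : ℤ) : (3 : ℂ) ^ n * cexp (-τ) ^ (n * (n + 1) / 2) =
    cexp (-τ * (n : ℂ) ^ 2 / 2 + ((Real.log 3 : ℂ) - τ / 2) * n) := by
  obtain ⟨k, hk⟩ := Int.even_mul_succ_self n
  have h1 : n * (n + 1) / 2 = k := by omega
  have h2 : (n : ℂ) * ((n : ℂ) + 1) = (k : ℂ) + k := by exact_mod_cast hk
  have h3 : (3 : ℂ) = cexp (Real.log 3 : ℂ) := by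
    rw [← Complex.ofReal_exp, Real.exp_log (by norm_num)]
    norm_num
  rw [h1]
  conv_lhs => rw [h3]
  rw [← Complex.exp_int_mul, ← Complex.exp_int_mul, ← Complex.exp_add]
  congr 1
  linear_combination (τ / 2) * h2

theorem Th_exp (τ : ℂ) : Th (cexp (-τ)) =
    ∑' n : ℤ, cexp (-τ * (n : ℂ) ^ 2 / 2 + ((Real.log 3 : ℂ) - τ / 2) * n) := by
  unfold Th
  exact tsum_congr fun n => Th_term τ n

/-- geometric tails over the integers -/
theorem tail_bound (f : ℤ → ℂ) (hf : ∀ m : ℤ, m ≠ 0 → ‖f m‖ ≤ Real.exp (-(10 * |(m : ℝ)|))) :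
    ‖∑' m, f m - f 0‖ ≤ 1 / 1000 := by
  set r : ℝ := Real.exp (-10) with hr
  have hr0 : 0 < r := Real.exp_pos _
  have hr1 : r ≤ 1 / 9000 := by
    rw [hr, Real.exp_neg, one_div]
    apply inv_anti₀ (by norm_num)
    have h1 : Real.exp 10 = Real.exp 1 ^ 10 := by
      rw [← Real.exp_nat_mul]
      norm_num
    rw [h1]
    have h2 : (2.5 : ℝ) ≤ Real.exp 1 := by
      have := Real.exp_one_gt_d9
      linarith
    calc (9000 : ℝ) ≤ 2.5 ^ 10 := by norm_num
      _ ≤ Real.exp 1 ^ 10 := by gcongr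
  have hlt : r < 1 := by linarith
  let g : ℤ → ℝ := fun m => r ^ m.natAbs
  have hg1 : HasSum (fun n : ℕ => g n) (1 - r)⁻¹ := by
    simpa [g] using hasSum_geometric_of_lt_one hr0.le hlt
  have hg2 : HasSum (fun n : ℕ => g (-((n : ℤ) + 1))) (r * (1 - r)⁻¹) := by
    have h1 := (hasSum_geometric_of_lt_one hr0.le hlt).mul_left r
    refine h1.congr_fun ?_ |> fun h => h
    intro n
    have : (-((n : ℤ) + 1)).natAbs = n + 1 := by omega
    simp only [g, this, pow_succ]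
    ring
  have hg := HasSum.of_nat_of_neg_add_one hg1 hg2
  have hge : ∀ m : ℤ, Real.exp (-(10 * |(m : ℝ)|)) = g m := by
    intro m
    have h1 : ((m.natAbs : ℕ) : ℝ) = |(m : ℝ)| := by
      rw [Nat.cast_natAbs]
      simp
    simp only [g, hr]
    rw [← Real.exp_nat_mul, h1]
    congr 1
    ring
  have hsum : Summable f := by
    refine Summable.of_norm_bounded_eventually (g := g) hg.summable ?_
    have : ({0} : Set ℤ).Finite := Set.finite_singleton 0
    refine Filter.eventually_cofinite.2 (this.subset fun m hm => ?_)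
    by_contra hne
    apply hm
    rw [← hge m]
    exact hf m hne
  rw [hsum.tsum_eq_add_tsum_ite 0, add_sub_cancel_left]
  have h0 : g 0 = 1 := by simp [g]
  have hite : ∑' m, (if m = 0 then (0:ℝ) else g m) = (1 - r)⁻¹ + r * (1 - r)⁻¹ - 1 := by
    have h1 := hg.summable.tsum_eq_add_tsum_ite 0
    rw [hg.tsum_eq, h0] at h1
    linarith
  have hsi : Summable fun m => (if m = 0 then (0:ℝ) else g m) := by
    refine Summable.of_nonneg_of_le (fun m => ?_) (fun m => ?_) hg.summable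
    · split_ifs
      · exact le_rfl
      · exact pow_nonneg hr0.le _
    · split_ifs
      · exact pow_nonneg hr0.le _
      · exact le_rfl
  have hb : ‖∑' m, (if m = 0 then (0:ℂ) else f m)‖ ≤ ∑' m, (if m = 0 then (0:ℝ) else g m) := by
    refine tsum_of_norm_bounded hsi.hasSum fun m => ?_
    split_ifs with h
    · simp
    · rw [← hge m]
      exact hf m h
  refine hb.trans ?_
  rw [hite]
  have h1r : 0 < 1 - r := by linarith
  have : (1 - r)⁻¹ + r * (1 - r)⁻¹ - 1 = 2 * r / (1 - r) := by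
    field_simp
    ring
  rw [this, div_le_iff₀ h1r]
  linarith

theorem t_TM (h : S_TP) : S_TM := by
  intro t θ ht ht90 hθ
  set τ := tau t θ with hτdef
  have hre : τ.re = t := by simp [hτdef, tau]
  have him : τ.im = -θ := by simp [hτdef, tau]
  have hpos : 0 < τ.re := by rw [hre]; exact ht
  have hτ0 : τ ≠ 0 := fun h => by simp [h] at hpos
  set L : ℂ := (Real.log 3 : ℂ) with hL
  let f : ℤ → ℂ := fun m => cexp ((2 * (Real.pi : ℂ) * I * m * L - 2 * (Real.pi : ℂ) ^ 2 * m ^ 2) / τ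
    - (Real.pi : ℂ) * I * m)
  have hf0 : f 0 = 1 := by simp [f]
  have hlog : Real.log 3 ≤ 2 := by
    have := Real.log_le_sub_one_of_pos (x := 3) (by norm_num)
    linarith
  have hlog0 : 0 ≤ Real.log 3 := Real.log_nonneg (by norm_num)
  have hfb : ∀ m : ℤ, m ≠ 0 → ‖f m‖ ≤ Real.exp (-(10 * |(m : ℝ)|)) := by
    intro m hm
    have hm1 : (1 : ℝ) ≤ |(m : ℝ)| := by
      have : (1 : ℤ) ≤ |m| := Int.one_le_abs hm
      exact_mod_cast this
    rw [Complex.norm_exp]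
    apply Real.exp_le_exp.2
    have e1 : ((2 * (Real.pi : ℂ) * I * m * L - 2 * (Real.pi : ℂ) ^ 2 * m ^ 2) / τ
      - (Real.pi : ℂ) * I * m).re =
      (-(2 * Real.pi ^ 2 * (m : ℝ) ^ 2) * t - 2 * Real.pi * m * Real.log 3 * θ) /
        (t ^ 2 + θ ^ 2) := by
      have z : (2 * (Real.pi : ℂ) * I * m * L - 2 * (Real.pi : ℂ) ^ 2 * m ^ 2) =
        ((-(2 * Real.pi ^ 2 * (m : ℝ) ^ 2) : ℝ) : ℂ) +
          ((2 * Real.pi * m * Real.log 3 : ℝ) : ℂ) * I := by
        rw [hL]; push_cast; ring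
      rw [z, Complex.sub_re, Complex.div_re, hre, him, Complex.normSq_apply, hre, him]
      simp only [Complex.add_re, Complex.ofReal_re, Complex.mul_re, Complex.I_re, Complex.ofReal_im,
        Complex.I_im, Complex.add_im, Complex.mul_im, mul_zero, mul_one, zero_mul, sub_self,
        add_zero, zero_add, Complex.intCast_re, Complex.intCast_im, sub_zero]
      rw [← add_div]
      congr 1 <;> ring
    rw [e1]
    have hden : 0 < t ^ 2 + θ ^ 2 := by positivity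
    rw [div_le_iff₀ hden]
    have hθ2 : θ ^ 2 ≤ t ^ 2 := by
      rw [← sq_abs θ]
      exact pow_le_pow_left₀ (abs_nonneg _) hθ 2
    have hpi := Real.pi_gt_three
    have hpi0 := Real.pi_pos
    have hmm : (m : ℝ) ^ 2 = |(m : ℝ)| ^ 2 := (sq_abs _).symm
    have h1 : -(2 * Real.pi * m * Real.log 3 * θ) ≤ 2 * Real.pi * |(m : ℝ)| * Real.log 3 * t := by
      have h2 : |2 * Real.pi * m * Real.log 3 * θ| = 2 * Real.pi * |(m : ℝ)| * Real.log 3 * |θ| := by
        rw [abs_mul, abs_mul, abs_mul, abs_mul, abs_of_nonneg hpi0.le, abs_of_nonneg hlog0]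
        norm_num
      have h3 := neg_abs_le (2 * Real.pi * m * Real.log 3 * θ)
      rw [h2] at h3
      have h4 : 2 * Real.pi * |(m : ℝ)| * Real.log 3 * |θ| ≤
          2 * Real.pi * |(m : ℝ)| * Real.log 3 * t := by
        gcongr
      linarith
    have hM : |(m : ℝ)| ≤ |(m : ℝ)| ^ 2 := by nlinarith
    set M := |(m : ℝ)| with hMdef
    rw [hmm]
    -- lower bound of the main term
    have h5 : 2 * Real.pi ^ 2 * M ^ 2 * t ≥ 2 * Real.pi ^ 2 * M * t := by
      gcongr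
    have h6 : 2 * Real.pi * M * Real.log 3 * t ≤ 2 * Real.pi * M * 2 * t := by
      gcongr
    have h7 : 10 * M * (t ^ 2 + θ ^ 2) ≤ 10 * M * (2 * t * (1 / 90)) := by
      have : t ^ 2 + θ ^ 2 ≤ 2 * t * (1 / 90) := by nlinarith
      gcongr
    have h8 : 0 ≤ M * t := by positivity
    have h9 : 2 * Real.pi ^ 2 - 4 * Real.pi ≥ 6 := by nlinarith
    have h10 : (2 * Real.pi ^ 2 - 4 * Real.pi) * (M * t) ≥ 6 * (M * t) := by gcongr
    nlinarith
  refine ⟨∑' m, f m - f 0, tail_bound f hfb, ?_⟩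
  have hq : qq t θ = cexp (-τ) := rfl
  have h3 : cexp (-(L / 2)) = ((1 / Real.sqrt 3 : ℝ) : ℂ) := by
    have h4 : (-(L / 2)) = ((-(Real.log 3 / 2) : ℝ) : ℂ) := by rw [hL]; push_cast; ring
    rw [h4, ← Complex.ofReal_exp]
    congr 1
    rw [Real.exp_neg, one_div, Real.exp_half, Real.exp_log (by norm_num)]
  rw [hq, Th_exp, h τ (L - τ / 2) hpos, hf0]
  have h5 : (1 : ℂ) + (∑' m, f m - 1) = ∑' m, f m := by ring
  have h6 : ∑' m : ℤ, cexp ((L - τ / 2 + 2 * (Real.pi : ℂ) * I * m) ^ 2 / (2 * τ)) =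
      cexp (τ / 8 + L ^ 2 / (2 * τ)) * cexp (-(L / 2)) * ∑' m, f m := by
    rw [← tsum_mul_left]
    refine tsum_congr fun m => ?_
    simp only [f]
    rw [← Complex.exp_add, ← Complex.exp_add]
    congr 1
    field_simp
    ring_nf
    rw [I_sq]
    ring
  rw [h5, h6, h3]
  ring

theorem theta_summable (τ β : ℂ) (hτ : 0 < τ.re) :
    Summable fun n : ℤ => cexp (-τ * (n : ℂ) ^ 2 / 2 + β * n) := by
  have hπ : (Real.pi : ℂ) ≠ 0 := by exact_mod_cast Real.pi_ne_zero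
  have him : 0 < (I * τ / (2 * (Real.pi : ℂ))).im := by
    have h1 : I * τ / (2 * (Real.pi : ℂ)) = (I * τ) / ((2 * Real.pi : ℝ) : ℂ) := by push_cast; rfl
    rw [h1, Complex.div_ofReal_im]
    refine div_pos ?_ (by positivity)
    simpa using hτ
  have h := (summable_jacobiTheta₂_term_iff (β / (2 * (Real.pi : ℂ) * I))
    (I * τ / (2 * (Real.pi : ℂ)))).2 him
  refine h.congr fun n => ?_
  unfold jacobiTheta₂_term
  congr 1
  field_simp
  ring_nf
  rw [I_sq]
  ring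

theorem norm_qq (t θ : ℝ) : ‖qq t θ‖ = Real.exp (-t) := by
  unfold qq tau
  rw [Complex.norm_exp]
  congr 1
  simp

theorem t_TT (h : S_TP) : S_TT := by
  intro t θ ht ht90
  have hqθ : ∀ n : ℤ, ‖(3 : ℂ) ^ n * qq t θ ^ (n * (n + 1) / 2)‖ =
      (3 : ℝ) ^ n * Real.exp (-t) ^ (n * (n + 1) / 2) := by
    intro n
    rw [norm_mul, norm_zpow, norm_zpow, norm_qq]
    norm_num
  have hq0 : qq t 0 = ((Real.exp (-t) : ℝ) : ℂ) := by
    unfold qq tau
    push_cast
    congr 1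
    ring
  have hsum : Summable fun n : ℤ => (3 : ℝ) ^ n * Real.exp (-t) ^ (n * (n + 1) / 2) := by
    have h1 : Summable fun n : ℤ => (3 : ℂ) ^ n * qq t θ ^ (n * (n + 1) / 2) := by
      have h2 := theta_summable (tau t θ) ((Real.log 3 : ℂ) - tau t θ / 2) (by simp [tau, ht])
      exact h2.congr fun n => (Th_term (tau t θ) n).symm
    exact h1.norm.congr hqθ
  have hle : ‖Th (qq t θ)‖ ≤ ‖Th (qq t 0)‖ := by
    have h1 : Th (qq t 0) =
        ((∑' n : ℤ, (3 : ℝ) ^ n * Real.exp (-t) ^ (n * (n + 1) / 2) : ℝ) : ℂ) := by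
      unfold Th
      rw [hq0, Complex.ofReal_tsum]
      refine tsum_congr fun n => ?_
      push_cast
      rfl
    rw [h1, Complex.norm_real, Real.norm_of_nonneg (tsum_nonneg fun n => by positivity)]
    unfold Th
    exact tsum_of_norm_bounded hsum.hasSum fun n => (hqθ n).le
  refine hle.trans ?_
  obtain ⟨e, he, hT⟩ := t_TM h t 0 ht ht90 (by simpa using ht.le)
  have htau : tau t 0 = (t : ℂ) := by simp [tau]
  rw [hT, htau]
  have h2πt : 0 ≤ 2 * Real.pi / t := by positivity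
  have n1 : ‖(2 * (Real.pi : ℂ) / (t : ℂ)) ^ (1 / 2 : ℂ)‖ = Real.sqrt (2 * Real.pi / t) := by
    have h1 : (2 * (Real.pi : ℂ) / (t : ℂ)) = ((2 * Real.pi / t : ℝ) : ℂ) := by push_cast; rfl
    have h2 : (1 / 2 : ℂ) = ((1 / 2 : ℝ) : ℂ) := by push_cast; rfl
    rw [h1, h2, ← Complex.ofReal_cpow h2πt, Complex.norm_real, ← Real.sqrt_eq_rpow,
      Real.norm_of_nonneg (Real.sqrt_nonneg _)]
  have n2 : ‖cexp ((t : ℂ) / 8 + (Real.log 3 : ℂ) ^ 2 / (2 * (t : ℂ)))‖ =
      Real.exp (t / 8) * Real.exp ((Real.log 3) ^ 2 / (2 * t)) := by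
    have h1 : ((t : ℂ) / 8 + (Real.log 3 : ℂ) ^ 2 / (2 * (t : ℂ))) =
        ((t / 8 + (Real.log 3) ^ 2 / (2 * t) : ℝ) : ℂ) := by push_cast; rfl
    rw [h1, ← Complex.ofReal_exp, Complex.norm_real, Real.norm_of_nonneg (Real.exp_pos _).le,
      Real.exp_add]
  have n3 : ‖((1 / Real.sqrt 3 : ℝ) : ℂ)‖ ≤ 5774 / 10000 := by
    rw [Complex.norm_real, Real.norm_of_nonneg (by positivity)]
    rw [div_le_iff₀ (by positivity)]
    have : (1.73205 : ℝ) ≤ Real.sqrt 3 := by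
      apply Real.le_sqrt_of_sq_le
      norm_num
    linarith
  have n4 : ‖(1 : ℂ) + e‖ ≤ 1001 / 1000 := by
    refine (norm_add_le _ _).trans ?_
    rw [norm_one]
    linarith
  have n5 : Real.exp (t / 8) ≤ 1002 / 1000 := by
    have h1 : t / 8 ≤ 1 / 720 := by linarith
    have h2 : Real.exp (t / 8) * (1 - t / 8) ≤ 1 := by
      have h3 := Real.add_one_le_exp (-(t / 8))
      have h4 : Real.exp (t / 8) * Real.exp (-(t / 8)) = 1 := by
        rw [← Real.exp_add]; simp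
      have h5 := Real.exp_pos (t / 8)
      nlinarith
    have h6 := Real.exp_pos (t / 8)
    nlinarith
  rw [norm_mul, norm_mul, norm_mul, n1, n2]
  have hs := Real.sqrt_nonneg (2 * Real.pi / t)
  have hE := (Real.exp_pos ((Real.log 3) ^ 2 / (2 * t))).le
  have hE8 := (Real.exp_pos (t / 8)).le
  have hc : ‖((1 / Real.sqrt 3 : ℝ) : ℂ)‖ * Real.exp (t / 8) * ‖(1 : ℂ) + e‖ ≤ 58 / 100 := by
    calc ‖((1 / Real.sqrt 3 : ℝ) : ℂ)‖ * Real.exp (t / 8) * ‖(1 : ℂ) + e‖
        ≤ (5774 / 10000) * (1002 / 1000) * (1001 / 1000) := by gcongr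
      _ ≤ 58 / 100 := by norm_num
  calc Real.sqrt (2 * Real.pi / t) * ‖((1 / Real.sqrt 3 : ℝ) : ℂ)‖ *
        (Real.exp (t / 8) * Real.exp ((Real.log 3) ^ 2 / (2 * t))) * ‖(1 : ℂ) + e‖
      = (‖((1 / Real.sqrt 3 : ℝ) : ℂ)‖ * Real.exp (t / 8) * ‖(1 : ℂ) + e‖) *
        (Real.sqrt (2 * Real.pi / t) * Real.exp ((Real.log 3) ^ 2 / (2 * t))) := by ring
    _ ≤ 58 / 100 * (Real.sqrt (2 * Real.pi / t) * Real.exp ((Real.log 3) ^ 2 / (2 * t))) :=
        mul_le_mul_of_nonneg_right hc (by positivity)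
    _ = 58 / 100 * Real.sqrt (2 * Real.pi / t) * Real.exp ((Real.log 3) ^ 2 / (2 * t)) := by ring

end Pool.Agent.K1H7.OP
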